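import Pool.Agent.H79.QF.Targets

set_option autoImplicit false

open Finset Pool.Agent.H79.QF

namespace Pool.Agent.H53.QF

theorem pf_INN : T_INN := by
  intro ι _ _ A x y ε hx hy h0 h1 hp hq
  have hle : ∀ i, (star (x i) * y i).re ≤ ‖x i‖ * ‖y i‖ := by
    intro i
    refine (Complex.re_le_norm _).trans ?_
    rw [norm_mul, norm_star]
  have hpc : ∑ i ∈ Aᶜ, ‖x i‖ ^ 2 = 1 - ∑ i ∈ A, ‖x i‖ ^ 2 := by
    rw [← hx, ← Finset.sum_add_sum_compl A]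
    ring
  have hqc : ∑ i ∈ Aᶜ, ‖y i‖ ^ 2 = 1 - ∑ i ∈ A, ‖y i‖ ^ 2 := by
    rw [← hy, ← Finset.sum_add_sum_compl A]
    ring
  have hp0 : 0 ≤ ∑ i ∈ A, ‖x i‖ ^ 2 := Finset.sum_nonneg fun i _ => by positivity
  have hq0 : 0 ≤ ∑ i ∈ A, ‖y i‖ ^ 2 := Finset.sum_nonneg fun i _ => by positivity
  have hpc0 : 0 ≤ 1 - ∑ i ∈ A, ‖x i‖ ^ 2 := by
    rw [← hpc]
    exact Finset.sum_nonneg fun i _ => by positivity
  have hqc0 : 0 ≤ 1 - ∑ i ∈ A, ‖y i‖ ^ 2 := by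
    rw [← hqc]
    exact Finset.sum_nonneg fun i _ => by positivity
  set p := ∑ i ∈ A, ‖x i‖ ^ 2 with hpd
  set q := ∑ i ∈ A, ‖y i‖ ^ 2 with hqd
  have hsum : ∑ i, (star (x i) * y i).re ≤
      Real.sqrt p * Real.sqrt q + Real.sqrt (1 - p) * Real.sqrt (1 - q) := by
    calc ∑ i, (star (x i) * y i).re ≤ ∑ i, ‖x i‖ * ‖y i‖ := Finset.sum_le_sum fun i _ => hle i
      _ = ∑ i ∈ A, ‖x i‖ * ‖y i‖ + ∑ i ∈ Aᶜ, ‖x i‖ * ‖y i‖ :=
          (Finset.sum_add_sum_compl A _).symm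
      _ ≤ _ := by
          apply add_le_add
          · rw [hpd, hqd]
            exact Real.sum_mul_le_sqrt_mul_sqrt A _ _
          · rw [← hpc, ← hqc]
            exact Real.sum_mul_le_sqrt_mul_sqrt Aᶜ _ _
  refine hsum.trans ?_
  have ha := Real.sq_sqrt hp0
  have hb := Real.sq_sqrt hq0
  have hc := Real.sq_sqrt hpc0
  have hd := Real.sq_sqrt hqc0
  have a0 := Real.sqrt_nonneg p
  have b0 := Real.sqrt_nonneg q
  have c0 := Real.sqrt_nonneg (1 - p)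
  have d0 := Real.sqrt_nonneg (1 - q)
  have h1e : 0 ≤ 1 - ε := by linarith
  have e1 := Real.sq_sqrt h0
  have e2 := Real.sq_sqrt h1e
  have f1 := Real.sqrt_nonneg ε
  have f2 := Real.sqrt_nonneg (1 - ε)
  have ap : Real.sqrt p ≤ Real.sqrt ε := Real.sqrt_le_sqrt hp
  have bq : Real.sqrt (1 - ε) ≤ Real.sqrt q := Real.sqrt_le_sqrt hq
  have cp : Real.sqrt (1 - ε) ≤ Real.sqrt (1 - p) := Real.sqrt_le_sqrt (by linarith)
  have dq : Real.sqrt (1 - q) ≤ Real.sqrt ε := Real.sqrt_le_sqrt (by linarith)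
  have s0 : 0 ≤ ε * (1 - ε) := mul_nonneg h0 h1e
  have s1 := Real.sq_sqrt s0
  set a := Real.sqrt p
  set b := Real.sqrt q
  set c := Real.sqrt (1 - p)
  set d := Real.sqrt (1 - q)
  set u := Real.sqrt ε
  set w := Real.sqrt (1 - ε)
  have hbc : 1 - ε ≤ b * c := by
    calc 1 - ε = w * w := by rw [← e2]; ring
      _ ≤ b * c := mul_le_mul bq cp f2 b0
  have had : a * d ≤ ε := by
    calc a * d ≤ u * u := mul_le_mul ap dq d0 f1
      _ = ε := by rw [← e1]; ring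
  have hL : (a * b + c * d) ^ 2 + (b * c - a * d) ^ 2 = 1 := by
    have : (a * b + c * d) ^ 2 + (b * c - a * d) ^ 2 = (a ^ 2 + c ^ 2) * (b ^ 2 + d ^ 2) := by ring
    rw [this, ha, hb, hc, hd]
    ring
  have h2 : (1 - 2 * ε) ^ 2 ≤ (b * c - a * d) ^ 2 :=
    pow_le_pow_left₀ (by linarith) (by linarith) 2
  have h3 : (a * b + c * d) ^ 2 ≤ (2 * Real.sqrt (ε * (1 - ε))) ^ 2 := by
    rw [mul_pow, s1]
    nlinarith
  exact (le_abs_self _).trans (abs_le_of_sq_le_sq h3 (by positivity))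

end Pool.Agent.H53.QF
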